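import Pool.Agent.P.MP_053557_co.FB3

/-!
Even-cycle matroids of graphs that are far from bipartite.  Let `S` be the simple graph under `G`.
Assume (a) `S - z` is connected for every vertex `z`; (b) there are no `k ≤ 3` and set `X` of at
most `2k` vertices such that `S - Z` is bipartite for some `Z ⊆ X` with at most three vertices and
`S - (X \ Y)` is bipartite for every `Y ⊆ X` with fewer than `k` vertices; (c) there are no `z ∉ J`
with `S[J]` and `S - J` bipartite such that each component of `S - J - z` has at most one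
neighbour in `J`.  Then a graph `H` without isolated vertices has the even-cycle matroid of `G`
if and only if it arises from `G` by Whitney twists of bipartite parts and a renaming of vertices.
-/

namespace Pool.Agent.Results.MP_053557_co.FarFromBipartite

open Pool.Agent.P.MP_053557_co

theorem result {V W E : Type} [Fintype V] [DecidableEq V] [Fintype W] [DecidableEq W]
    [Fintype E] (G : E → Sym2 V) (H : E → Sym2 W)
    (S : SimpleGraph V) (hS : S = SimpleGraph.fromEdgeSet (Set.range G))
    (h2 : ∀ z : V, (S.induce {z}ᶜ).Connected)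
    (h4 : ¬ ∃ (k : ℕ) (X Z : Finset V), k ≤ 3 ∧ X.card ≤ 2 * k ∧ Z ⊆ X ∧ Z.card ≤ 3 ∧
      (S.induce (Z : Set V)ᶜ).Colorable 2 ∧
      ∀ Y ⊆ X, Y.card < k → (S.induce ((X \ Y : Finset V) : Set V)ᶜ).Colorable 2)
    (hp : ¬ ∃ (z : V) (J : Set V) (τ : V → V), z ∉ J ∧
      (S.induce J).Colorable 2 ∧ (S.induce Jᶜ).Colorable 2 ∧
      ∀ a, a ∉ J → a ≠ z → ∀ b, S.Adj a b →
        (b ∈ J → b = τ a) ∧ (b ∉ J → b ≠ z → τ b = τ a))
    (hH : ∀ w, ∃ e, w ∈ H e) :
    (∀ I : Set E, LinearIndepOn ℝ (fun e v => (inc G v e : ℝ)) I ↔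
      LinearIndepOn ℝ (fun e w => (inc H w e : ℝ)) I) ↔
    ∃ G1, Relation.ReflTransGen FB.Twist G G1 ∧ ∃ φ : V ≃ W, ∀ e, H e = (G1 e).map φ := by
  subst hS
  exact (RG.main G H).trans (FB.final (FB.good_simple G h2 h4 hp) H hH)

end Pool.Agent.Results.MP_053557_co.FarFromBipartite
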