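import Pool.Agent.P.MP_053557_co.RG7

/-!
A Whitney-type theorem for even-cycle matroids, in the words of graph theory: two graphs on a
common edge set have the same even-cycle matroid if and only if, regarded as all-negative signed
graphs, one is obtained from the other by a finite sequence of the operations listed in `Move`
(relabelling, switching, moving positive loops, and regluing parts by a twist, a rotation or one
of four sporadic tables).
-/

namespace Pool.Agent.Results.MP_053557_co.Regluing

open Pool.Agent.P.MP_053557_co Pool.Agent.P.MP_053557_co.RG

theorem result {V W E : Type} [Fintype V] [DecidableEq V] [Fintype W] [DecidableEq W]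
    [Fintype E] (G : E → Sym2 V) (H : E → Sym2 W) :
    (∀ S : Set E, LinearIndepOn ℝ (fun e v => (inc G v e : ℝ)) S ↔
      LinearIndepOn ℝ (fun e w => (inc H w e : ℝ)) S) ↔
    Relation.EqvGen Move (fun e => ((G e).map Sum.inl, true) : SGraph (V ⊕ W) E)
      (fun e => ((H e).map Sum.inr, true)) :=
  main G H

end Pool.Agent.Results.MP_053557_co.Regluing
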